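import Pool.Agent.P8H36.FD.Stm

/-! Project FD, package CMP: a quotient of coprime polynomials which is in `K(θ)`. -/

set_option autoImplicit false

namespace Pool.Agent.P8H68.FD

open Polynomial IntermediateField

/-- the package CMP -/
theorem cmp : Pool.Agent.P8H36.FD.S_CMP := by
  classical
  intro K _ θ u v hθ huv hv hu hmem
  obtain ⟨r, s, hrs⟩ := (mem_adjoin_simple_iff K _).1 hmem
  have hae : ∀ P : K[X], aeval (algebraMap K[X] (RatFunc K) θ) P =
      algebraMap K[X] (RatFunc K) (P.comp θ) := by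
    intro P
    rw [aeval_algebraMap_apply]
    rfl
  rw [hae, hae] at hrs
  have hinj : Function.Injective (algebraMap K[X] (RatFunc K)) :=
    IsFractionRing.injective K[X] (RatFunc K)
  have hu' : algebraMap K[X] (RatFunc K) u ≠ 0 := fun h => hu (hinj (by rw [h, map_zero]))
  have hv' : algebraMap K[X] (RatFunc K) v ≠ 0 := fun h => hv (hinj (by rw [h, map_zero]))
  have hs' : algebraMap K[X] (RatFunc K) (s.comp θ) ≠ 0 := by
    intro h
    rw [h, div_zero] at hrs
    exact div_ne_zero hu' hv' hrs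
  have hsθ : s.comp θ ≠ 0 := fun h => hs' (by rw [h, map_zero])
  have hs0 : s ≠ 0 := by
    rintro rfl
    exact hsθ (by rw [zero_comp])
  -- divide by the greatest common divisor
  set g := EuclideanDomain.gcd r s with hg
  have hg0 : g ≠ 0 := by
    intro h
    have h1 : g ∣ s := EuclideanDomain.gcd_dvd_right r s
    rw [h, zero_dvd_iff] at h1
    exact hs0 h1
  obtain ⟨r1, hr1⟩ := EuclideanDomain.gcd_dvd_left r s
  obtain ⟨s1, hs1⟩ := EuclideanDomain.gcd_dvd_right r s
  rw [← hg] at hr1 hs1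
  have hco : IsCoprime r1 s1 := by
    refine ⟨EuclideanDomain.gcdA r s, EuclideanDomain.gcdB r s, ?_⟩
    have h1 := EuclideanDomain.gcd_eq_gcd_ab r s
    rw [← hg] at h1
    apply mul_left_cancel₀ hg0
    calc g * (EuclideanDomain.gcdA r s * r1 + EuclideanDomain.gcdB r s * s1)
        = (g * r1) * EuclideanDomain.gcdA r s + (g * s1) * EuclideanDomain.gcdB r s := by ring
      _ = r * EuclideanDomain.gcdA r s + s * EuclideanDomain.gcdB r s := by rw [← hr1, ← hs1]
      _ = g * 1 := by rw [mul_one, ← h1]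
  have hco' : IsCoprime (r1.comp θ) (s1.comp θ) := by
    have h := hco.map (compRingHom θ)
    exact h
  have hsc : s.comp θ = g.comp θ * s1.comp θ := by
    conv_lhs => rw [hs1]
    rw [mul_comp]
  have hrc : r.comp θ = g.comp θ * r1.comp θ := by
    conv_lhs => rw [hr1]
    rw [mul_comp]
  have hgθ : g.comp θ ≠ 0 := by
    intro h
    rw [h, zero_mul] at hsc
    exact hsθ hsc
  have hs1θ : s1.comp θ ≠ 0 := by
    intro h
    rw [h, mul_zero] at hsc
    exact hsθ hsc
  have hcross : u * s1.comp θ = v * r1.comp θ := by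
    have h1 : algebraMap K[X] (RatFunc K) (u * s.comp θ) =
        algebraMap K[X] (RatFunc K) (v * r.comp θ) := by
      rw [map_mul, map_mul]
      rw [div_eq_div_iff hv' hs'] at hrs
      rw [hrs]
      ring
    have h2 := hinj h1
    rw [hsc, hrc] at h2
    apply mul_left_cancel₀ hgθ
    calc g.comp θ * (u * s1.comp θ) = u * (g.comp θ * s1.comp θ) := by ring
      _ = v * (g.comp θ * r1.comp θ) := h2
      _ = g.comp θ * (v * r1.comp θ) := by ring
  have hr1θ : r1.comp θ ≠ 0 := by
    intro h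
    rw [h, mul_zero] at hcross
    exact mul_ne_zero hu hs1θ hcross
  have hd1 : u ∣ r1.comp θ := huv.dvd_of_dvd_mul_left (Dvd.intro _ hcross)
  have hd2 : r1.comp θ ∣ u :=
    hco'.dvd_of_dvd_mul_right (Dvd.intro_left v hcross.symm)
  obtain ⟨w, hw⟩ := hd2
  obtain ⟨w', hw'⟩ := hd1
  have hunit : IsUnit w := by
    refine IsUnit.of_mul_eq_one w' ?_
    apply mul_left_cancel₀ hr1θ
    rw [mul_one, ← mul_assoc, ← hw, ← hw']
  obtain ⟨e, he, hew⟩ := isUnit_iff.1 hunit
  refine ⟨C e * r1, C e * s1, ?_, ?_⟩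
  · rw [mul_comp, C_comp, hw, ← hew]
    ring
  · rw [mul_comp, C_comp]
    apply mul_right_cancel₀ hr1θ
    rw [← hcross, hw, ← hew]
    ring

end Pool.Agent.P8H68.FD
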